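import Pool.Agent.H49.KD.Defs
import Pool.Agent.H49.KA.R2
import Pool.Agent.H49.KA.R4

namespace H49KD

open H49KA

universe u

private lemma ac_inv {n : ℕ} (g : Equiv.Perm (Fin n)) (x : Fin n) : g⁻¹ (g x) = x :=
  g.symm_apply_apply x

/-- there is an even permutation placing two disjoint sets in two disjoint sets -/
private lemma ac_place {n : ℕ} (P Q D E : Finset (Fin n)) (hPQ : Disjoint P Q)
    (hD : Disjoint D E) (hP : P.card ≤ D.card) (hQ : Q.card ≤ E.card)
    (hn : P.card + Q.card + 2 ≤ n) :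
    ∃ g ∈ alternatingGroup (Fin n), (∀ x ∈ P, g x ∈ D) ∧ ∀ x ∈ Q, g x ∈ E := by
  classical
  obtain ⟨e1⟩ : Nonempty ({x // x ∈ P} ↪ {x // x ∈ D}) :=
    Function.Embedding.nonempty_of_card_le (by simpa using hP)
  obtain ⟨e2⟩ : Nonempty ({x // x ∈ Q} ↪ {x // x ∈ E}) :=
    Function.Embedding.nonempty_of_card_le (by simpa using hQ)
  let φ : Fin n → Fin n := fun x =>
    if h : x ∈ P then (e1 ⟨x, h⟩ : Fin n) else if h : x ∈ Q then (e2 ⟨x, h⟩ : Fin n) else x
  have hφP : ∀ x (h : x ∈ P), φ x = (e1 ⟨x, h⟩ : Fin n) := fun x h => dif_pos h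
  have hφQ : ∀ x (h : x ∈ Q), φ x = (e2 ⟨x, h⟩ : Fin n) := fun x h => by
    have h1 : x ∉ P := fun h2 => Finset.disjoint_left.1 hPQ h2 h
    change (if h : x ∈ P then (e1 ⟨x, h⟩ : Fin n) else
      if h : x ∈ Q then (e2 ⟨x, h⟩ : Fin n) else x) = _
    rw [dif_neg h1, dif_pos h]
  have hinj : Set.InjOn φ ((P ∪ Q : Finset (Fin n)) : Set (Fin n)) := by
    intro x hx y hy hxy
    rw [Finset.mem_coe, Finset.mem_union] at hx hy
    rcases hx with hx | hx <;> rcases hy with hy | hy
    · rw [hφP x hx, hφP y hy] at hxy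
      exact congrArg Subtype.val (e1.injective (Subtype.ext hxy))
    · rw [hφP x hx, hφQ y hy] at hxy
      exact absurd (hxy ▸ (e1 ⟨x, hx⟩).2 : (e2 ⟨y, hy⟩ : Fin n) ∈ D)
        (fun h => Finset.disjoint_left.1 hD h (e2 ⟨y, hy⟩).2)
    · rw [hφQ x hx, hφP y hy] at hxy
      exact absurd (hxy ▸ (e2 ⟨x, hx⟩).2 : (e1 ⟨y, hy⟩ : Fin n) ∈ E)
        (Finset.disjoint_left.1 hD (e1 ⟨y, hy⟩).2)
    · rw [hφQ x hx, hφQ y hy] at hxy
      exact congrArg Subtype.val (e2.injective (Subtype.ext hxy))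
  let e := Equiv.Set.imageOfInjOn φ _ hinj
  let g₀ : Equiv.Perm (Fin n) := e.extendSubtype
  have hg₀ : ∀ x ∈ P ∪ Q, g₀ x = φ x := by
    intro x hx
    exact e.extendSubtype_apply_of_mem x (Finset.mem_coe.2 hx)
  have h1 : ∀ x ∈ P, g₀ x ∈ D := fun x hx => by
    rw [hg₀ x (Finset.mem_union_left _ hx), hφP x hx]
    exact (e1 ⟨x, hx⟩).2
  have h2 : ∀ x ∈ Q, g₀ x ∈ E := fun x hx => by
    rw [hg₀ x (Finset.mem_union_right _ hx), hφQ x hx]
    exact (e2 ⟨x, hx⟩).2
  by_cases hs : Equiv.Perm.sign g₀ = 1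
  · exact ⟨g₀, Equiv.Perm.mem_alternatingGroup.2 hs, h1, h2⟩
  · have hs' : Equiv.Perm.sign g₀ = -1 := (Int.units_eq_one_or _).resolve_left hs
    have hcompl : 1 < ((P ∪ Q)ᶜ).card := by
      rw [Finset.card_compl, Fintype.card_fin]
      have := Finset.card_union_le P Q
      omega
    obtain ⟨s1, h3, s2, h4, h34⟩ := Finset.one_lt_card.1 hcompl
    rw [Finset.mem_compl] at h3 h4
    have hsw : ∀ x ∈ P ∪ Q, (g₀ * Equiv.swap s1 s2) x = g₀ x := by
      intro x hx
      have hx1 : x ≠ s1 := fun h => h3 (h ▸ hx)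
      have hx2 : x ≠ s2 := fun h => h4 (h ▸ hx)
      rw [Equiv.Perm.mul_apply, Equiv.swap_apply_of_ne_of_ne hx1 hx2]
    refine ⟨g₀ * Equiv.swap s1 s2, ?_, ?_, ?_⟩
    · rw [Equiv.Perm.mem_alternatingGroup, Equiv.Perm.sign_mul, Equiv.Perm.sign_swap h34, hs']
      rfl
    · intro x hx
      rw [hsw x (Finset.mem_union_left _ hx)]
      exact h1 x hx
    · intro x hx
      rw [hsw x (Finset.mem_union_right _ hx)]
      exact h2 x hx

/-- equal or joined by a three-cycle of `U` -/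
private def ACR {n : ℕ} (U : Subgroup (Equiv.Perm (Fin n))) (x y : Fin n) : Prop :=
  x = y ∨ ∃ c ∈ U, c.IsThreeCycle ∧ c x = y

private lemma acr_symm {n : ℕ} {U : Subgroup (Equiv.Perm (Fin n))} {x y : Fin n}
    (h : ACR U x y) : ACR U y x := by
  rcases h with rfl | ⟨c, hc, h3, rfl⟩
  · exact Or.inl rfl
  · exact Or.inr ⟨c⁻¹, U.inv_mem hc, h3.inv, ac_inv c x⟩

private lemma acr_trans {n : ℕ} {U : Subgroup (Equiv.Perm (Fin n))} {x y z : Fin n}
    (h : ACR U x y) (h' : ACR U y z) : ACR U x z := by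
  by_cases hxy : x = y
  · rw [hxy]
    exact h'
  by_cases hyz : y = z
  · rw [← hyz]
    exact h
  by_cases hxz : x = z
  · exact Or.inl hxz
  exact Or.inr (conn_trans U x y z hxy hyz hxz (h.resolve_left hxy) (h'.resolve_left hyz))

private lemma acr_move {n : ℕ} {U : Subgroup (Equiv.Perm (Fin n))} {x y : Fin n}
    (h : ACR U x y) {u : Equiv.Perm (Fin n)} (hu : u ∈ U) : ACR U (u x) (u y) := by
  rcases h with rfl | ⟨c, hc, h3, rfl⟩
  · exact Or.inl rfl
  · refine Or.inr ⟨u * c * u⁻¹, U.mul_mem (U.mul_mem hu hc) (U.inv_mem hu), ?_, ?_⟩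
    · unfold Equiv.Perm.IsThreeCycle
      rw [Equiv.Perm.cycleType_conj]
      exact h3
    · rw [Equiv.Perm.mul_apply, Equiv.Perm.mul_apply, ac_inv]

theorem alt_conf (s m : ℕ) : ∃ b : ℕ, ∀ (n : ℕ) (Y : Subgroup (Equiv.Perm (Fin n)))
    (f : Fin s → Equiv.Perm (Fin n)) (ω : Fin n) (U : Subgroup (Equiv.Perm (Fin n))),
    b < Nat.card Y → (∀ i, f i ∈ Y) → (∀ i, f i ≠ 1) →
    Nat.card (Subgroup.closure (Set.range f)) ≤ m → (∀ y ∈ Y, y ω = ω → y = 1) →
    (∀ g ∈ alternatingGroup (Fin n), ∃ i, g * f i * g⁻¹ ∈ U) →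
    alternatingGroup (Fin n) ≤ U := by
  classical
  obtain ⟨b', n₀, hcore⟩ := confined_core m
  refine ⟨n₀ + b' * (s + 2) + s + s * s + 2 * s + 4, ?_⟩
  intro n Y f ω U hb hfY hf1 hm hreg hconf
  have hreg' : ∀ y ∈ Y, ∀ y' ∈ Y, y ω = y' ω → y = y' := by
    intro y hy y' hy' h
    have h1 := hreg (y'⁻¹ * y) (Y.mul_mem (Y.inv_mem hy') hy) (by
      rw [Equiv.Perm.mul_apply, h, ac_inv])
    exact (inv_mul_eq_one.1 h1).symm
  have hYn : Nat.card Y ≤ n := by
    have h1 := Nat.card_le_card_of_injective (fun y : Y => (y : Equiv.Perm (Fin n)) ω)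
      (fun y y' h => Subtype.ext (hreg' y y.2 y' y'.2 h))
    rwa [Nat.card_eq_fintype_card (α := Fin n), Fintype.card_fin] at h1
  set A := b' * (s + 2) with hA
  have hker := hcore n (by omega) (Subgroup.closure (Set.range f)) hm U (fun g hg => by
    obtain ⟨i, hi⟩ := hconf g hg
    exact ⟨f i, Subgroup.subset_closure ⟨i, rfl⟩, hf1 i, hi⟩)
  let cls : Fin n → Finset (Fin n) := fun x => Finset.univ.filter fun y => ACR U x y
  have hcls : ∀ x y, y ∈ cls x ↔ ACR U x y := fun x y => by simp [cls]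
  have hself : ∀ x, x ∈ cls x := fun x => (hcls x x).2 (Or.inl rfl)
  let st : Setoid (Fin n) := ⟨ACR U, ⟨fun _ => Or.inl rfl, acr_symm, acr_trans⟩⟩
  let rep : Fin n → Fin n := fun x => (Quotient.mk st x).out
  have hrep : ∀ x, ACR U (rep x) x := fun x => Quotient.exact (Quotient.out_eq (Quotient.mk st x))
  have hrep' : ∀ x y, ACR U x y → rep x = rep y := fun x y h =>
    congrArg Quotient.out (Quotient.sound (s := st) h)
  have hB : (Finset.univ.image rep).card < b' := by
    by_contra hcon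
    push Not at hcon
    obtain ⟨x, hx, y, hy, hxy, h3⟩ := hker (Finset.univ.image rep) hcon
    obtain ⟨x', -, rfl⟩ := Finset.mem_image.1 hx
    obtain ⟨y', -, rfl⟩ := Finset.mem_image.1 hy
    apply hxy
    apply hrep'
    exact acr_trans (acr_symm (hrep x')) (acr_trans (Or.inr h3) (hrep y'))
  obtain ⟨x₁, -, hmax⟩ := Finset.exists_max_image Finset.univ (fun x => (cls x).card)
    ⟨ω, Finset.mem_univ ω⟩
  have hbig : s + 2 ≤ (cls x₁).card := by
    by_contra hcon
    push Not at hcon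
    have h1 := Finset.card_le_mul_card_image (f := rep) Finset.univ (s + 2) (by
      intro a _
      refine le_trans ?_ ((hmax a (Finset.mem_univ a)).trans hcon.le)
      apply Finset.card_le_card
      intro x hx
      rw [Finset.mem_filter] at hx
      rw [hcls, ← hx.2]
      exact hrep x)
    rw [Finset.card_univ, Fintype.card_fin] at h1
    have h2 : (s + 2) * (Finset.univ.image rep).card ≤ A := by
      rw [hA, mul_comm]
      exact Nat.mul_le_mul_right _ hB.le
    omega
  by_cases hall : ∀ x, x ∈ cls x₁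
  · intro σ hσ
    refine alt_le_of_conn U Finset.univ (fun x _ y _ hxy => ?_) σ hσ (Finset.subset_univ _)
    exact (acr_trans (acr_symm ((hcls _ _).1 (hall x))) ((hcls _ _).1 (hall y))).resolve_left hxy
  exfalso
  push Not at hall
  obtain ⟨x₂, hx₂⟩ := hall
  have hdisj : Disjoint (cls x₂) (cls x₁) := by
    rw [Finset.disjoint_left]
    intro z h1 h2
    apply hx₂
    rw [hcls]
    exact acr_trans ((hcls _ _).1 h2) (acr_symm ((hcls _ _).1 h1))
  let Q : Finset (Fin n) := Finset.univ.image fun i => f i ω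
  have hQ : Q.card ≤ s := by
    refine Finset.card_image_le.trans ?_
    rw [Finset.card_univ, Fintype.card_fin]
  have hfQ : ∀ i, f i ω ∈ Q := fun i => Finset.mem_image_of_mem _ (Finset.mem_univ i)
  by_cases hlt : (cls x₂).card < (cls x₁).card
  · have hdPQ : Disjoint ({ω} : Finset (Fin n)) Q := by
      rw [Finset.disjoint_singleton_left]
      intro h
      obtain ⟨i, -, hi⟩ := Finset.mem_image.1 h
      exact hf1 i (hreg _ (hfY i) hi)
    obtain ⟨g, hg, hg1, hg2⟩ := ac_place {ω} Q (cls x₂) (cls x₁) hdPQ hdisj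
      (by rw [Finset.card_singleton]; exact Finset.card_pos.2 ⟨x₂, hself x₂⟩) (by omega)
      (by rw [Finset.card_singleton]; omega)
    obtain ⟨i, hi⟩ := hconf g hg
    have h1 : ACR U x₂ (g ω) := (hcls _ _).1 (hg1 ω (Finset.mem_singleton_self ω))
    have h2 : ACR U x₁ (g (f i ω)) := (hcls _ _).1 (hg2 _ (hfQ i))
    set u := g * f i * g⁻¹ with hu
    have h3 : u⁻¹ (g (f i ω)) = g ω := by
      rw [Equiv.Perm.inv_eq_iff_eq, hu, Equiv.Perm.mul_apply, Equiv.Perm.mul_apply,
        ac_inv]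
    have h4 : (cls x₁).card ≤ (cls x₂).card := by
      rw [← Finset.card_image_of_injective (cls x₁) (u⁻¹).injective]
      apply Finset.card_le_card
      intro z hz
      obtain ⟨w, hw, rfl⟩ := Finset.mem_image.1 hz
      rw [hcls] at hw ⊢
      have h5 := acr_move (acr_trans (acr_symm h2) hw) (U.inv_mem hi)
      rw [h3] at h5
      exact acr_trans h1 h5
    omega
  · -- both classes are large
    obtain ⟨y, hyY, hy1, hy2⟩ : ∃ y ∈ Y, (∀ j, y ≠ f j) ∧ ∀ i j, f i * y ≠ f j := by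
      by_contra hcon
      push Not at hcon
      let Ex : Finset (Equiv.Perm (Fin n)) := (Finset.univ.image f) ∪
        (Finset.univ ×ˢ Finset.univ : Finset (Fin s × Fin s)).image fun t => (f t.1)⁻¹ * f t.2
      have hEx : Ex.card ≤ s + s * s := by
        refine (Finset.card_union_le _ _).trans (Nat.add_le_add ?_ ?_)
        · refine Finset.card_image_le.trans ?_
          rw [Finset.card_univ, Fintype.card_fin]
        · refine Finset.card_image_le.trans ?_
          rw [Finset.card_product, Finset.card_univ, Fintype.card_fin]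
      have hmem : ∀ y ∈ Y, y ∈ Ex := by
        intro y hy
        by_cases h : ∀ j, y ≠ f j
        · obtain ⟨i, j, hij⟩ := hcon y hy h
          refine Finset.mem_union_right _ (Finset.mem_image.2 ⟨(i, j), by simp, ?_⟩)
          change (f i)⁻¹ * f j = y
          rw [← hij, inv_mul_cancel_left]
        · push Not at h
          obtain ⟨j, hj⟩ := h
          exact Finset.mem_union_left _ (Finset.mem_image.2 ⟨j, Finset.mem_univ j, hj.symm⟩)
      have h1 := Nat.card_le_card_of_injective (fun y : Y => (⟨y, hmem y y.2⟩ : {x // x ∈ Ex}))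
        (fun y y' h => Subtype.ext (congrArg (fun z : {x // x ∈ Ex} => (z : Equiv.Perm (Fin n))) h))
      rw [Nat.card_eq_fintype_card (α := {x // x ∈ Ex}), Fintype.card_coe] at h1
      omega
    let P : Finset (Fin n) := insert ω (insert (y ω) (Finset.univ.image fun i => f i (y ω)))
    have hP : P.card ≤ s + 2 := by
      refine (Finset.card_insert_le _ _).trans (Nat.succ_le_succ ?_)
      refine (Finset.card_insert_le _ _).trans (Nat.succ_le_succ ?_)
      refine Finset.card_image_le.trans ?_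
      rw [Finset.card_univ, Fintype.card_fin]
    have hPy : ∀ i, f i (y ω) ∈ P := fun i => Finset.mem_insert_of_mem
      (Finset.mem_insert_of_mem (Finset.mem_image_of_mem _ (Finset.mem_univ i)))
    have hdPQ : Disjoint P Q := by
      rw [Finset.disjoint_left]
      intro z hz hz'
      obtain ⟨j, -, hj⟩ := Finset.mem_image.1 hz'
      rw [Finset.mem_insert, Finset.mem_insert, Finset.mem_image] at hz
      rcases hz with rfl | rfl | ⟨i, -, rfl⟩
      · exact hf1 j (hreg _ (hfY j) hj)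
      · exact hy1 j (hreg' _ hyY _ (hfY j) hj.symm)
      · refine hy2 i j (hreg' _ (Y.mul_mem (hfY i) hyY) _ (hfY j) ?_)
        rw [Equiv.Perm.mul_apply]
        exact hj.symm
    obtain ⟨g, hg, hg1, hg2⟩ := ac_place P Q (cls x₂) (cls x₁) hdPQ hdisj (by omega) (by omega)
      (by omega)
    obtain ⟨i, hi⟩ := hconf g hg
    have h1 : ACR U x₂ (g ω) := (hcls _ _).1 (hg1 ω (Finset.mem_insert_self _ _))
    have h1' : ACR U x₂ (g (y ω)) := (hcls _ _).1 (hg1 _ (Finset.mem_insert_of_mem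
      (Finset.mem_insert_self _ _)))
    have h1'' : ACR U x₂ (g (f i (y ω))) := (hcls _ _).1 (hg1 _ (hPy i))
    have h2 : ACR U x₁ (g (f i ω)) := (hcls _ _).1 (hg2 _ (hfQ i))
    have h3 := acr_move (acr_trans (acr_symm h1) h1') hi
    have e : ∀ v, (g * f i * g⁻¹) (g v) = g (f i v) := by
      intro v
      rw [Equiv.Perm.mul_apply, Equiv.Perm.mul_apply, ac_inv]
    rw [e, e] at h3
    apply hx₂
    rw [hcls]
    exact acr_trans h2 (acr_trans h3 (acr_symm h1''))

end H49KD
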