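import Pool.Agent.H49.KD.Defs

namespace H49KD

open H49KA H49KB H49KC

universe u

/-- images of normal subgroups under a map onto a simple alternating group -/
private theorem AE_image {G : Type u} [Group G] (X N : Subgroup G) (hNX : N ≤ X)
    (hN : NormIn X N) (n : ℕ) (hn : 5 ≤ n) (p : X →* Equiv.Perm (Fin n))
    (hp : p.range = alternatingGroup (Fin n)) :
    (∀ x : X, (x : G) ∈ N → p x = 1) ∨ (∀ x : X, ∃ y : X, (y : G) ∈ N ∧ p y = p x) := by
  classical
  have hsimp : IsSimpleGroup (alternatingGroup (Fin n)) :=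
    alternatingGroup.isSimpleGroup (by simpa using hn)
  -- the corestriction
  let q : X →* alternatingGroup (Fin n) :=
    p.codRestrict (alternatingGroup (Fin n)) (fun x => by
      rw [← hp]
      exact ⟨x, rfl⟩)
  have hq : ∀ x, (q x : Equiv.Perm (Fin n)) = p x := fun x => rfl
  have hqs : Function.Surjective q := by
    rintro ⟨y, hy⟩
    rw [← hp] at hy
    obtain ⟨x, hx⟩ := hy
    exact ⟨x, Subtype.ext hx⟩
  have hnorm : ((N.subgroupOf X).map q).Normal := by
    have h1 : (N.subgroupOf X).Normal := ⟨fun m hm x => by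
      rw [Subgroup.mem_subgroupOf] at hm ⊢
      exact hN x x.2 m hm⟩
    exact h1.map q hqs
  rcases hsimp.eq_bot_or_eq_top_of_normal _ hnorm with h | h
  · left
    intro x hx
    have h1 : q x ∈ (N.subgroupOf X).map q :=
      ⟨x, by rw [SetLike.mem_coe, Subgroup.mem_subgroupOf]; exact hx, rfl⟩
    rw [h, Subgroup.mem_bot] at h1
    rw [← hq, h1]
    rfl
  · right
    intro x
    have h1 : q x ∈ (N.subgroupOf X).map q := by
      rw [h]
      exact Subgroup.mem_top _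
    obtain ⟨y, hy, hyx⟩ := h1
    rw [SetLike.mem_coe, Subgroup.mem_subgroupOf] at hy
    exact ⟨y, hy, by rw [← hq, ← hq, hyx]⟩

theorem alt_eq {G : Type u} [Group G] (X T C Y : Subgroup G) (hfin : Finite X)
    (h : AlmostSimpleSec X T C) (hYX : Y ≤ X) (hYC : Y ⊓ C = ⊥) (hY : 24 < Nat.card Y) (n : ℕ)
    (p : X →* Equiv.Perm (Fin n)) (hp : p.range = alternatingGroup (Fin n))
    (hpC : ∀ x : X, p x = 1 → (x : G) ∈ C) : T = X ∧ ∀ x : X, p x = 1 ↔ (x : G) ∈ C := by
  classical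
  obtain ⟨hTX, hXC, hXT, ⟨hCT, hTC, hmin, a, ha, b, hb, hab⟩, hcen⟩ := h
  have hn : 5 ≤ n := by
    by_contra hcon
    have h1 : Nat.card Y ≤ Nat.card (Equiv.Perm (Fin n)) := by
      refine Nat.card_le_card_of_injective (fun y : Y => p ⟨y, hYX y.2⟩) ?_
      intro y z hyz
      have h2 : p (⟨y, hYX y.2⟩ * ⟨z, hYX z.2⟩⁻¹) = 1 := by
        rw [map_mul, map_inv]
        have h3 : p ⟨y, hYX y.2⟩ = p ⟨z, hYX z.2⟩ := hyz
        rw [h3, mul_inv_cancel]
      have h4 : (y : G) * (z : G)⁻¹ ∈ Y ⊓ C := ⟨Y.mul_mem y.2 (Y.inv_mem z.2), hpC _ h2⟩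
      rw [hYC, Subgroup.mem_bot, mul_inv_eq_one] at h4
      exact Subtype.ext h4
    have h5 : Nat.card (Equiv.Perm (Fin n)) = n.factorial := by
      rw [Nat.card_eq_fintype_card, Fintype.card_perm, Fintype.card_fin]
    have h6 : n.factorial ≤ Nat.factorial 4 := Nat.factorial_le (by omega)
    have h7 : Nat.factorial 4 = 24 := rfl
    omega
  have hCX : C ≤ X := hCT.trans hTX
  have hab' : a * b * a⁻¹ * b⁻¹ ∈ T :=
    T.mul_mem (T.mul_mem (T.mul_mem ha hb) (T.inv_mem ha)) (T.inv_mem hb)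
  have hC : ∀ x : X, (x : G) ∈ C → p x = 1 := by
    rcases AE_image X C hCX hXC n hn p hp with h1 | h1
    · exact h1
    · exfalso
      obtain ⟨y, hy, hyx⟩ := h1 ⟨_, hTX hab'⟩
      have h2 : p (⟨_, hTX hab'⟩ * y⁻¹) = 1 := by
        rw [map_mul, map_inv, hyx, mul_inv_cancel]
      have h3 := C.mul_mem (hpC _ h2) hy
      apply hab
      have h4 : (((⟨_, hTX hab'⟩ : X) * y⁻¹ : X) : G) * (y : G) = a * b * a⁻¹ * b⁻¹ := by
        push_cast
        group
      rwa [h4] at h3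
  refine ⟨?_, fun x => ⟨hpC x, hC x⟩⟩
  rcases AE_image X T hTX hXT n hn p hp with h1 | h1
  · exact absurd (hpC ⟨_, hTX hab'⟩ (h1 _ hab')) hab
  · apply le_antisymm hTX
    intro x hx
    obtain ⟨y, hy, hyx⟩ := h1 ⟨x, hx⟩
    have h2 : p (⟨x, hx⟩ * y⁻¹) = 1 := by
      rw [map_mul, map_inv, hyx, mul_inv_cancel]
    have h3 := T.mul_mem (hCT (hpC _ h2)) hy
    have h4 : (((⟨x, hx⟩ : X) * y⁻¹ : X) : G) * (y : G) = x := by
      push_cast
      group
    rwa [h4] at h3

end H49KD
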