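import Pool.Agent.H49.KD.Defs
import Pool.Agent.H49.KC.MS
import Pool.Agent.H49.KC.S3

namespace H49KD

open H49KA H49KB H49KC

universe u v w

variable {K : Type u} [Group K]

theorem cMod_card {X N N₀ M : Subgroup K} (hN : NAb N N₀) (hXn : X.Normal) (hNX : N ≤ X)
    (hM : MaxN N N₀ M) (hfix : ∀ x ∈ X, cj x M = M) (Y : Subgroup K) (hYX : Y ≤ X)
    (hYC : Y ⊓ cMod X N M = ⊥) (m : ℕ) (hm : M.relIndex N ≤ m) :
    Nat.card Y ≤ m ^ m := by
  classical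
  have hfin := hN.finK
  have hNn := hN.nN
  obtain ⟨hN₀M, hMN, hMne, hMn, hMmax⟩ := hM
  have hMX : ∀ x ∈ X, ∀ a, a ∈ M ↔ x * a * x⁻¹ ∈ M := by
    intro x hx a
    constructor
    · intro ha
      have h1 : x * a * x⁻¹ ∈ cj x M := ⟨a, ha, rfl⟩
      rwa [hfix x hx] at h1
    · intro ha
      rw [← hfix x hx] at ha
      obtain ⟨b, hb, hb'⟩ := ha
      have h2 : x * b * x⁻¹ = x * a * x⁻¹ := hb'
      have h3 : b = a := by
        have h4 := mul_right_cancel h2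
        exact mul_left_cancel h4
      exact h3 ▸ hb
  let f : Y → (N ⧸ M.subgroupOf N) → (N ⧸ M.subgroupOf N) := fun y q =>
    QuotientGroup.mk ⟨(y : K) * (q.out : N) * (y : K)⁻¹, hNn.conj_mem _ q.out.2 _⟩
  have hf : Function.Injective f := by
    intro y₁ y₂ h
    have hx : (y₁ : K)⁻¹ * y₂ ∈ Y ⊓ cMod X N M := by
      refine ⟨Y.mul_mem (Y.inv_mem y₁.2) y₂.2, ?_⟩
      have hxX : (y₁ : K)⁻¹ * y₂ ∈ X := X.mul_mem (X.inv_mem (hYX y₁.2)) (hYX y₂.2)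
      refine ⟨hxX, hMX _ hxX, fun n hn => ?_⟩
      -- the representative
      let q : N ⧸ M.subgroupOf N := QuotientGroup.mk ⟨n, hn⟩
      have hq : (QuotientGroup.mk q.out : N ⧸ M.subgroupOf N) = QuotientGroup.mk ⟨n, hn⟩ :=
        QuotientGroup.out_eq' q
      have hq1 : (q.out : K)⁻¹ * n ∈ M := by
        have := QuotientGroup.eq.1 hq
        rwa [Subgroup.mem_subgroupOf] at this
      have h1 : f y₁ q = f y₂ q := congrFun h q
      have h2 : ((y₁ : K) * (q.out : N) * (y₁ : K)⁻¹)⁻¹ * ((y₂ : K) * (q.out : N) * (y₂ : K)⁻¹) ∈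
          M := by
        have := QuotientGroup.eq.1 h1
        rwa [Subgroup.mem_subgroupOf] at this
      set r : K := ((q.out : N) : K) with hr
      have hrN : r ∈ N := q.out.2
      set x : K := (y₁ : K)⁻¹ * y₂ with hxdef
      have h3 : r⁻¹ * (x * r * x⁻¹) ∈ M := by
        rw [hMX y₁ (hYX y₁.2)]
        have h4 : (y₁ : K) * (r⁻¹ * (x * r * x⁻¹)) * (y₁ : K)⁻¹ =
            ((y₁ : K) * r * (y₁ : K)⁻¹)⁻¹ * ((y₂ : K) * r * (y₂ : K)⁻¹) := by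
          rw [hxdef]; group
        rw [h4]
        exact h2
      have h5 : x * r * x⁻¹ * r⁻¹ ∈ M := by
        have h6 : x * r * x⁻¹ * r⁻¹ = r * (r⁻¹ * (x * r * x⁻¹)) * r⁻¹ := by group
        rw [h6]
        exact hMn r hrN _ h3
      have h7 : x * n * x⁻¹ * n⁻¹ =
          (x * r * x⁻¹ * r⁻¹) * (r * ((x * (r⁻¹ * n) * x⁻¹) * (r⁻¹ * n)⁻¹) * r⁻¹) := by group
      rw [h7]
      refine M.mul_mem h5 (hMn r hrN _ (M.mul_mem ?_ (M.inv_mem hq1)))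
      exact (hMX x hxX _).1 hq1
    rw [hYC, Subgroup.mem_bot] at hx
    exact Subtype.ext (inv_mul_eq_one.1 hx)
  have hc : Nat.card Y ≤ Nat.card ((N ⧸ M.subgroupOf N) → (N ⧸ M.subgroupOf N)) :=
    Nat.card_le_card_of_injective f hf
  have hidx : Nat.card (N ⧸ M.subgroupOf N) = M.relIndex N := rfl
  rw [Nat.card_fun, hidx] at hc
  have hpos : 0 < M.relIndex N := by
    rw [← hidx]
    exact Nat.card_pos
  exact hc.trans ((Nat.pow_le_pow_left hm _).trans (Nat.pow_le_pow_right (hpos.trans_le hm) hm))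

theorem exists_M {Z : Subgroup K → Prop} {s b c : ℕ} {f : Fin s → K} {Y X U : Subgroup K}
    (hd : CData Z s b c f Y X U) {N N₀ : Subgroup K} (hN : Chf X U N N₀)
    (hperf : ⁅N, N⁆ = N) (hfix : ∀ M, MaxN N N₀ M → ∀ x ∈ X, cj x M = M) :
    ∃ M, MaxN N N₀ M ∧ Y ⊓ cMod X N M = ⊥ := by
  classical
  have hNA : NAb N N₀ :=
    ⟨hd.finK, hN.nN, hN.nN₀, hN.le, fun h => hN.NU (h ▸ hN.N₀U), hN.min, hperf⟩
  have hNn := hN.nN
  have hN₀n := hN.nN₀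
  by_contra hcon
  push Not at hcon
  obtain ⟨⟨M₀, hM₀⟩, -, -, -, h5, -, -⟩ := maxN_structure hNA
  have hY : ∀ M, MaxN N N₀ M → Y ≤ cMod X N M := by
    intro M hM
    have h1 := (cMod_sec hNA hd.hXn hN.NX hM (hfix M hM)).2.2
    apply hd.tY _ h1
    have h2 := hcon M hM
    obtain ⟨a, ha⟩ := Subgroup.ne_bot_iff_exists_ne_one.1 h2
    exact ⟨(a : K), a.2.1, fun h => ha (Subtype.ext h), a.2.2⟩
  have hYN : ∀ y ∈ Y, ∀ n ∈ N, y * n * y⁻¹ * n⁻¹ ∈ N₀ := by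
    intro y hy n hn
    have h1 : ∀ M, MaxN N N₀ M → y * n * y⁻¹ * n⁻¹ ∈ M := fun M hM => (hY M hM hy).2.2 n hn
    rw [← (h5 M₀ hM₀).1]
    refine ⟨⟨?_, ?_⟩, h1 M₀ hM₀⟩
    · exact N.mul_mem (hNn.conj_mem n hn y) (N.inv_mem hn)
    · exact Subgroup.mem_sInf.2 fun M' hM' => h1 M' hM'.1
  let Z : Subgroup K :=
    { carrier := {g | ∀ n ∈ N, g * n * g⁻¹ * n⁻¹ ∈ N₀}
      mul_mem' := by
        intro a b ha hb n hn
        have h1 : a * b * n * (a * b)⁻¹ * n⁻¹ =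
            (a * (b * n * b⁻¹) * a⁻¹ * (b * n * b⁻¹)⁻¹) * (b * n * b⁻¹ * n⁻¹) := by group
        rw [h1]
        exact N₀.mul_mem (ha _ (hNn.conj_mem n hn b)) (hb n hn)
      one_mem' := by
        intro n hn
        simp [N₀.one_mem]
      inv_mem' := by
        intro a ha n hn
        have h1 := ha (a⁻¹ * n * a) (by simpa using hNn.conj_mem n hn a⁻¹)
        have h3 : a⁻¹ * n * a⁻¹⁻¹ * n⁻¹ =
            (a * (a⁻¹ * n * a) * a⁻¹ * (a⁻¹ * n * a)⁻¹)⁻¹ := by group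
        rw [h3]
        exact N₀.inv_mem h1 }
  have hZn : Z.Normal := by
    refine ⟨fun a ha g => ?_⟩
    intro n hn
    have h1 : g * a * g⁻¹ * n * (g * a * g⁻¹)⁻¹ * n⁻¹ =
        g * (a * (g⁻¹ * n * g) * a⁻¹ * (g⁻¹ * n * g)⁻¹) * g⁻¹ := by group
    rw [h1]
    exact hN₀n.conj_mem _ (ha _ (by simpa using hNn.conj_mem n hn g⁻¹)) g
  have hXZ : X ≤ Z := hd.d1 Z hZn ⟨f ⟨0, hd.hs⟩, hd.hfY _, hd.hf1 _, hYN _ (hd.hfY _)⟩
  apply hN.NU
  refine le_trans ?_ hN.N₀U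
  rw [← hN.comm, Subgroup.commutator_le]
  intro n hn x hx
  rw [commutatorElement_def]
  have h1 := N₀.inv_mem (hXZ hx n hn)
  have h2 : (x * n * x⁻¹ * n⁻¹)⁻¹ = n * x * n⁻¹ * x⁻¹ := by group
  rwa [h2] at h1

end H49KD
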