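import Pool.Agent.H49.KD.Defs
import Pool.Agent.H49.KD.PI
import Pool.Agent.H49.KC.MS
import Pool.Agent.H49.KC.DI
import Pool.Agent.H49.KC.CP
import Pool.Agent.H49.KC.CD
import Pool.Agent.H49.KD.MM

namespace H49KD

open H49KA H49KB H49KC

universe u v w

variable {K : Type u} [Group K]

private theorem C2_mem {g : K} {M : Subgroup K} {x : K} : x ∈ cj g M ↔ g⁻¹ * x * g ∈ M := by
  constructor
  · rintro ⟨y, hy, rfl⟩
    have : g⁻¹ * (g * y * g⁻¹) * g = y := by group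
    show g⁻¹ * (g * y * g⁻¹) * g ∈ M
    rw [this]
    exact hy
  · intro h
    refine ⟨_, h, ?_⟩
    show g * (g⁻¹ * x * g) * g⁻¹ = x
    group

private theorem C2_mul (g h : K) (M : Subgroup K) : cj (g * h) M = cj g (cj h M) := by
  ext x
  rw [C2_mem, C2_mem, C2_mem]
  have : (g * h)⁻¹ * x * (g * h) = h⁻¹ * (g⁻¹ * x * g) * h := by group
  rw [this]

private theorem C2_one (M : Subgroup K) : cj 1 M = M := by
  ext x
  rw [C2_mem]
  simp

private theorem C2_inv_left (g : K) (M : Subgroup K) : cj g⁻¹ (cj g M) = M := by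
  rw [← C2_mul, inv_mul_cancel, C2_one]

private theorem C2_inv_right (g : K) (M : Subgroup K) : cj g (cj g⁻¹ M) = M := by
  rw [← C2_mul, mul_inv_cancel, C2_one]

private theorem C2_inj {g : K} {A B : Subgroup K} (h : cj g A = cj g B) : A = B := by
  rw [← C2_inv_left g A, h, C2_inv_left]

private theorem C2_sup (g : K) (A B : Subgroup K) : cj g (A ⊔ B) = cj g A ⊔ cj g B :=
  Subgroup.map_sup A B _

private theorem C2_inf (g : K) (A B : Subgroup K) : cj g (A ⊓ B) = cj g A ⊓ cj g B := by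
  ext x
  rw [Subgroup.mem_inf, C2_mem, C2_mem, C2_mem, Subgroup.mem_inf]

private theorem C2_normal {N : Subgroup K} (hN : N.Normal) (g : K) : cj g N = N := by
  ext x
  rw [C2_mem]
  constructor
  · intro h
    have h1 := hN.conj_mem _ h g
    have h2 : g * (g⁻¹ * x * g) * g⁻¹ = x := by group
    rwa [h2] at h1
  · intro h
    have h1 := hN.conj_mem _ h g⁻¹
    rwa [inv_inv] at h1

private theorem C2_fix {N M : Subgroup K} (h : NormIn N M) {n : K} (hn : n ∈ N) :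
    cj n M = M := by
  ext x
  rw [C2_mem]
  constructor
  · intro hx
    have h1 := h n hn _ hx
    have h2 : n * (n⁻¹ * x * n) * n⁻¹ = x := by group
    rwa [h2] at h1
  · intro hx
    have h1 := h n⁻¹ (N.inv_mem hn) _ hx
    rwa [inv_inv] at h1

private theorem C2_self {U : Subgroup K} {u : K} (hu : u ∈ U) : cj u U = U :=
  C2_fix (fun _ hx _ ht => U.mul_mem (U.mul_mem hx ht) (U.inv_mem hx)) hu

/-- `Y` moves one of the maximal normal subgroups -/
private theorem C2_moved {Z : Subgroup K → Prop} {s b c : ℕ} {f : Fin s → K} {Y X U : Subgroup K}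
    (hd : CData Z s b c f Y X U) {N N₀ : Subgroup K} (hab : NAb N N₀)
    {M : Subgroup K} (hM : MaxN N N₀ M) {x : K} (hx : x ∈ X) (hne : cj x M ≠ M) :
    ∃ y ∈ Y, ∃ M₁, MaxN N N₀ M₁ ∧ cj y M₁ ≠ M₁ := by
  by_contra hcon
  push Not at hcon
  obtain ⟨-, hconj, -⟩ := maxN_structure hab
  -- the kernel of the action
  let C : Subgroup K :=
    { carrier := {g | ∀ M, MaxN N N₀ M → cj g M = M}
      mul_mem' := by
        intro a b ha hb M hM
        rw [C2_mul, hb M hM, ha M hM]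
      one_mem' := fun M _ => C2_one M
      inv_mem' := by
        intro a ha M hM
        have h1 := ha M hM
        conv_lhs => rw [← h1]
        exact C2_inv_left a M }
  have hC : C.Normal := by
    refine ⟨fun a ha g M hM => ?_⟩
    rw [C2_mul, C2_mul, ha _ (hconj M hM g⁻¹), C2_inv_right]
  have hXC : X ≤ C := by
    refine hd.d1 C hC ⟨f ⟨0, hd.hs⟩, hd.hfY _, hd.hf1 _, fun M hM => ?_⟩
    exact hcon _ (hd.hfY _) M hM
  exact hne (hXC hx M hM)

open Classical in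
/-- the finite set of maximal normal subgroups with a given property -/
private theorem C2_set {Z : Subgroup K → Prop} {s b c : ℕ} {f : Fin s → K} {Y X U : Subgroup K}
    (hd : CData Z s b c f Y X U) (hc : 10 * (s + 1) ^ 2 ≤ c)
    {N N₀ : Subgroup K} (hN : Chf X U N N₀) (hab : NAb N N₀)
    (P : Subgroup K → Subgroup K → Prop) (hP : ∀ g Q M, P Q M → P (cj g Q) (cj g M))
    {y : K} (hy : y ∈ Y) {M₁ : Subgroup K} (hM₁ : MaxN N N₀ M₁) (hne : cj y M₁ ≠ M₁)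
    (hM : ∃ M, MaxN N N₀ M ∧ P (U ⊓ N) M) :
    ∃ g : K, ∃ I : Finset (Subgroup K),
      (∀ M, M ∈ I ↔ MaxN N N₀ M ∧ P (cj g U ⊓ N) M) ∧
      (∀ i, ∀ M ∈ I, cj (f i) M ∈ I) ∧
      ∀ i, 10 * (s + 1) ^ 2 < (I.filter (fun M => cj (f i) M ≠ M)).card := by
  obtain ⟨M, hM, hPM⟩ := hM
  obtain ⟨-, hconj, htr, -⟩ := maxN_structure hab
  obtain ⟨g, rfl⟩ := htr M M₁ hM hM₁
  have hfin : Finite K := hd.finK
  have hd' := cdata_conj hd g
  have hN' := chf_conj hd.hXn hN g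
  let I : Finset (Subgroup K) :=
    (Set.toFinite {M | MaxN N N₀ M ∧ P (cj g U ⊓ N) M}).toFinset
  have hI : ∀ M, M ∈ I ↔ MaxN N N₀ M ∧ P (cj g U ⊓ N) M := by
    intro M
    rw [Set.Finite.mem_toFinset]
    rfl
  have hinv : ∀ x ∈ X, ∀ M ∈ I, cj x M ∈ I := by
    intro x hx M hMI
    rw [hI] at hMI ⊢
    refine ⟨hconj M hMI.1 x, ?_⟩
    have hNn : N.Normal := hN.nN
    have h1 : x ∈ cj g U ⊔ N := hN'.XUN hx
    rw [Subgroup.mem_sup_of_normal_right] at h1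
    obtain ⟨u, hu, n, hn, rfl⟩ := h1
    have h2 := hP u _ _ hMI.2
    rw [C2_inf, C2_self hu, C2_normal hNn] at h2
    rw [C2_mul, C2_fix hMI.1.2.2.2.1 hn]
    exact h2
  have hM1I : cj g M ∈ I := by
    rw [hI]
    refine ⟨hM₁, ?_⟩
    have h2 := hP g _ _ hPM
    rwa [C2_inf, C2_normal hN.nN] at h2
  refine ⟨g, I, hI, fun i M hM => hinv _ (hd.hYX (hd.hfY i)) M hM, fun i => ?_⟩
  exact lt_of_le_of_lt hc (moves_many hd' I hinv ⟨y, hy, cj g M, hM1I, hne⟩ i)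

private theorem C2_final {Z : Subgroup K → Prop} {s b c : ℕ} {f : Fin s → K} {Y X U : Subgroup K}
    (hd : CData Z s b c f Y X U) {N N₀ : Subgroup K} (hN : Chf X U N N₀)
    (h : ∃ h : Fin (s + 1) → K, (∀ j, h j ∈ N) ∧ ∀ i j j', j ≠ j' →
      h j * f i * (h j)⁻¹ * (h j' * f i * (h j')⁻¹)⁻¹ ∉ U ⊓ N) : False := by
  obtain ⟨h, hh, hnot⟩ := h
  obtain ⟨i, j, j', hne, hmem⟩ := pigeon s f U hd.conf h
  refine hnot i j j' hne (Subgroup.mem_inf.2 ⟨hmem, ?_⟩)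
  have h1 := hN.nN.conj_mem _ (N.mul_mem (N.inv_mem (hh j)) (hh j')) (f i)
  have h2 := N.mul_mem (N.mul_mem (hh j) h1) (N.inv_mem (hh j'))
  have h3 : h j * (f i * ((h j)⁻¹ * h j') * (f i)⁻¹) * (h j')⁻¹ =
      h j * f i * (h j)⁻¹ * (h j' * f i * (h j')⁻¹)⁻¹ := by group
  rwa [h3] at h2

theorem case2 {Z : Subgroup K → Prop} {s b c : ℕ} {f : Fin s → K} {Y X U : Subgroup K}
    (hd : CData Z s b c f Y X U) (hc : 10 * (s + 1) ^ 2 ≤ c)
    {N N₀ : Subgroup K} (hN : Chf X U N N₀) (hperf : ⁅N, N⁆ = N) :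
    ∀ M, MaxN N N₀ M → ∀ x ∈ X, cj x M = M := by
  classical
  intro M hM x hx
  by_contra hne
  have hab := nab_of_chf hd hN hperf
  obtain ⟨y, hy, M₁, hM₁, hyM⟩ := C2_moved hd hab hM hx hne
  obtain ⟨-, hconj, -⟩ := maxN_structure hab
  have hle : ∀ g, N₀ ≤ cj g U ⊓ N := fun g => le_inf (chf_conj hd.hXn hN g).N₀U hN.le
  have hneQ : ∀ g, cj g U ⊓ N ≠ N := fun g h =>
    (chf_conj hd.hXn hN g).NU (inf_eq_right.1 h)
  have hneQ1 : U ⊓ N ≠ N := fun h => hN.NU (inf_eq_right.1 h)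
  rcases dichotomy hab (U ⊓ N) (le_inf hN.N₀U hN.le) inf_le_right hneQ1 with h | ⟨hfull, h⟩
  · obtain ⟨g, I, hI, hinv, hmv⟩ := C2_set hd hc hN hab (fun Q M => Q ⊔ M ≠ N)
      (fun g Q M hQM h => by
        apply hQM
        apply C2_inj (g := g)
        rw [C2_sup, h, C2_normal hN.nN]) hy hM₁ hyM h
    refine C2_final (cdata_conj hd g) (chf_conj hd.hXn hN g) ?_
    exact comb_P hab (cj g U ⊓ N) (hle g) inf_le_right s f I (fun M hM => (hI M).1 hM) hinv hmv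
  · obtain ⟨g, I, hI, hinv, hmv⟩ := C2_set hd hc hN hab
      (fun Q M => ∃ M', MaxN N N₀ M' ∧ M' ≠ M ∧ Q ⊓ M = Q ⊓ M')
      (by
        rintro g Q M ⟨M', h1, h2, h3⟩
        refine ⟨cj g M', hconj M' h1 g, fun h => h2 (C2_inj h), ?_⟩
        rw [← C2_inf, h3, C2_inf]) hy hM₁ hyM (by
        obtain ⟨M, M', h1, h2, h3, h4⟩ := h
        exact ⟨M, h1, M', h2, h3, h4⟩)
    have hfull' : ∀ M, MaxN N N₀ M → cj g U ⊓ N ⊔ M = N := by
      intro M hM
      have h1 := hfull _ (hconj M hM g⁻¹)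
      have h2 := congrArg (cj g) h1
      rwa [C2_sup, C2_inv_right, C2_inf, C2_normal hN.nN] at h2
    refine C2_final (cdata_conj hd g) (chf_conj hd.hXn hN g) ?_
    refine comb_D hab (cj g U ⊓ N) (hle g) inf_le_right hfull' s f I (fun M hM => ?_) hinv hmv
    obtain ⟨h1, M', h2, h3, h4⟩ := (hI M).1 hM
    exact ⟨h1, M', (hI M').2 ⟨h2, M, h1, h3.symm, h4.symm⟩, h3, h4⟩

end H49KD
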