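import Pool.Agent.H49.KC.Defs

/-!
Definitions for project KD: groups of alternating type, regular orbits.
-/

namespace H49KD

open H49KA H49KB H49KC

universe u

/-- Every finite subgroup `D` of `G` is contained in a finite subgroup `M` such that, whenever
`p` is a homomorphism from a finite subgroup `X` containing `M` onto an alternating group which
is not trivial on `D`, the group `D` has a regular orbit in the action given by `p` (and in
particular `p` is injective on `D`). -/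
def RegOrb (G : Type u) [Group G] : Prop :=
  ∀ D : Subgroup G, Finite D → ∃ M : Subgroup G, Finite M ∧ D ≤ M ∧
    ∀ X : Subgroup G, Finite X → M ≤ X → ∀ (n : ℕ) (p : X →* Equiv.Perm (Fin n)),
      p.range = alternatingGroup (Fin n) → (∃ x : X, (x : G) ∈ D ∧ p x ≠ 1) →
      ∃ ω : Fin n, ∀ x : X, (x : G) ∈ D → p x ω = ω → x = 1

variable {K : Type u} [Group K]

/-- `X / C` is an alternating group and `Y` has a regular orbit in its natural action -/
def AltReg (X C Y : Subgroup K) : Prop :=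
  ∃ (n : ℕ) (p : X →* Equiv.Perm (Fin n)), p.range = alternatingGroup (Fin n) ∧
    (∀ x : X, p x = 1 ↔ (x : K) ∈ C) ∧
    ∃ ω : Fin n, ∀ x : X, (x : K) ∈ Y → p x ω = ω → x = 1

/-- the finite situation coming from a proper confined subgroup; `Z` is a property of the
kernels of the tops -/
structure CData (Z : Subgroup K → Prop) (s b c : ℕ) (f : Fin s → K) (Y X U : Subgroup K) :
    Prop where
  finK : Finite K
  hs : 0 < s
  hfY : ∀ i, f i ∈ Y
  hf1 : ∀ i, f i ≠ 1
  hYX : Y ≤ X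
  hXn : X.Normal
  hX : ⁅X, X⁆ = X
  tY : ∀ N : Subgroup K, NormIn X N → (∃ y ∈ Y, y ≠ 1 ∧ y ∈ N) → Y ≤ N
  d1 : ∀ N : Subgroup K, N.Normal → (∃ y ∈ Y, y ≠ 1 ∧ y ∈ N) → X ≤ N
  nab : ∃ a ∈ Y, ∃ b ∈ Y, a * b ≠ b * a
  big : b < Nat.card Y
  hXU : ¬ X ≤ U
  maxU : ∀ U' : Subgroup K, U ≤ U' → U' ≠ U → X ≤ U'
  conf : ∀ g : K, ∃ i, g * f i * g⁻¹ ∈ U
  rk : ∀ (k : Type) [Field k] (V : Type) [AddCommGroup V] [Module k V] (p : X →* PGrp k V)
    (x : X) (i : Fin s), (x : K) = f i → p x ≠ 1 →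
    ∀ (g : V ≃ₗ[k] V) (a : k), p x = (g : PGrp k V) → ¬ SmallRank c g a
  tops : ∀ T C : Subgroup K, AlmostSimpleSec X T C → Y ⊓ C = ⊥ → T = X ∧ Z C

end H49KD
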