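import Pool.Agent.H49.KD.Main

namespace H49KD

open H49KA H49KB H49KC

universe u

theorem criterion (G : Type u) [Group G] [Infinite G] (hG : LocFin G) (hn : ¬ Finitary G)
    (d : ℕ) (𝓛 : Set (Subgroup G)) (h𝓛 : LocalSystem 𝓛) (hT : Tops d 𝓛) :
    AugSimple G ↔ IsSimpleGroup G ∧ (AltQuot G → RegOrb G) := by
  obtain ⟨h1, h2, h3⟩ := mainD G hG hn d 𝓛 h𝓛 hT
  constructor
  · intro h
    obtain ⟨h4, h5⟩ := h2.1 h
    exact ⟨h4, fun _ => h5⟩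
  · rintro ⟨h4, h5⟩
    by_cases hQ : AltQuot G
    · exact h2.2 ⟨h4, h5 hQ⟩
    · exact (h3 hQ).2 h4

end H49KD
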