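import Pool.Agent.H49.KD.Defs
import Pool.Agent.H49.KA.A1
import Pool.Agent.H49.KA.A2

namespace H49KD

open H49KA H49KB H49KC

universe u

variable {G : Type u} [Group G]

theorem regOrb_of_noConf (hG : LocFin G) (hC : NoConf G) : RegOrb G := by
  intro D hD
  obtain ⟨K₀, hK₀, hDK, h⟩ := exists_ro hG hC D
  refine ⟨K₀, hK₀, hDK, ?_⟩
  rintro X hX hKX n p hp ⟨x₀, hx₀, hpx₀⟩
  -- a point moved by `x₀`
  obtain ⟨ω₀, hω₀⟩ : ∃ ω₀, p x₀ ω₀ ≠ ω₀ := by
    by_contra hcon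
    push Not at hcon
    exact hpx₀ (Equiv.ext hcon)
  let H : Subgroup G := (((MulAction.stabilizer (Equiv.Perm (Fin n)) ω₀).comap p)).map X.subtype
  have hH : ∀ x : X, (x : G) ∈ H ↔ p x ω₀ = ω₀ := by
    intro x
    constructor
    · rintro ⟨y, hy, hyx⟩
      have : y = x := Subtype.ext hyx
      subst this
      exact hy
    · intro hx
      exact ⟨x, hx, rfl⟩
  obtain ⟨k, hk, hk'⟩ := h H (fun hle => hω₀ ((hH x₀).1 (hle hx₀)))
  refine ⟨p ⟨k, hKX hk⟩ ω₀, fun x hx hpx => ?_⟩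
  have h1 : ((⟨k, hKX hk⟩ : X)⁻¹ * x * ⟨k, hKX hk⟩ : X).1 ∈ H := by
    rw [hH, map_mul, map_mul, map_inv, Equiv.Perm.mul_apply, Equiv.Perm.mul_apply, hpx]
    exact Equiv.symm_apply_apply _ _
  exact Subtype.ext (hk' x hx h1)

theorem regOrb_of_notAltQuot (hG : LocFin G) [IsSimpleGroup G] (hQ : ¬ AltQuot G) :
    RegOrb G := by
  classical
  have hQ' : ∃ S0 : Finset G, ∀ (X : Subgroup G) (n : ℕ) (p : X →* Equiv.Perm (Fin n)),
      Finite X → (S0 : Set G) ⊆ X → p.range = alternatingGroup (Fin n) →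
      ¬ ∀ x : X, (x : G) ∈ Subgroup.closure (S0 : Set G) → p x = 1 → x = 1 := by
    by_contra hcon
    push Not at hcon
    apply hQ
    intro S0
    obtain ⟨X, n, p, h1, h2, h3, h4⟩ := hcon S0
    exact ⟨X, n, p, h1, h2, h3, h4⟩
  obtain ⟨S0, hS0⟩ := hQ'
  intro D hD
  let Y : Subgroup G := Subgroup.closure ((S0 : Set G) ∪ (D : Set G))
  have hYfin : Finite Y := by
    have h := hG (S0 ∪ (Set.toFinite (D : Set G)).toFinset)
    rw [Finset.coe_union, Set.Finite.coe_toFinset] at h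
    exact h
  have hDY : D ≤ Y := fun x hx => Subgroup.subset_closure (Or.inr hx)
  have hSY : Subgroup.closure (S0 : Set G) ≤ Y := Subgroup.closure_mono Set.subset_union_left
  obtain ⟨Y', hY'fin, hYY', htY⟩ := exists_plus hG Y
  refine ⟨Y', hY'fin, hDY.trans hYY', ?_⟩
  rintro X hX hYX n p hp ⟨x₀, hx₀, hpx₀⟩
  exfalso
  refine hS0 X n p hX (fun x hx => hYX (hYY' (hSY (Subgroup.subset_closure hx)))) hp ?_
  intro x hx hpx
  by_contra hx1
  have h1 : Y ≤ (p.ker).map X.subtype := by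
    apply htY
    · rintro y hy _ ⟨n, hn, rfl⟩
      exact ⟨⟨y, hYX hy⟩ * n * ⟨y, hYX hy⟩⁻¹, (MonoidHom.normal_ker p).conj_mem n hn _, rfl⟩
    · exact ⟨x, hSY hx, fun h => hx1 (Subtype.ext h), ⟨x, hpx, rfl⟩⟩
  obtain ⟨y, hy, hyx⟩ := h1 (hDY hx₀)
  have : y = x₀ := Subtype.ext hyx
  subst this
  exact hpx₀ hy

end H49KD
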