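import Pool.Agent.H49.KD.Defs
import Pool.Agent.H49.KD.AC

namespace H49KD

open H49KA H49KB H49KC

universe u

theorem top_alt (s m : ℕ) : ∃ b : ℕ, ∀ (K : Type u) [Group K] (X C U Y : Subgroup K)
    (f : Fin s → K), AltReg X C Y → Y ≤ X → (∀ i, f i ∈ Y) → (∀ i, f i ≠ 1) →
    b < Nat.card Y → Nat.card (Subgroup.closure (Set.range f)) ≤ m → C ≤ U → U ≤ X →
    (∀ x ∈ X, ∃ i, x * f i * x⁻¹ ∈ U) → U = X := by
  obtain ⟨b, hb⟩ := alt_conf s m
  refine ⟨b, ?_⟩
  intro K _ X C U Y f hreg hYX hfY hf1 hbY hm hCU hUX hconf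
  obtain ⟨n, p, hp, hker, ω, hω⟩ := hreg
  have hYfin : Finite Y := Nat.finite_of_card_ne_zero (by omega)
  let f' : Fin s → X := fun i => ⟨f i, hYX (hfY i)⟩
  have hinj : ∀ x : X, (x : K) ∈ Y → p x = 1 → x = 1 := fun x hx h =>
    hω x hx (by rw [h]; rfl)
  have hcY : Nat.card Y ≤ Nat.card ((Y.subgroupOf X).map p) := by
    refine Nat.card_le_card_of_injective (fun y : Y => (⟨p ⟨y, hYX y.2⟩,
      Subgroup.mem_map_of_mem p (Subgroup.mem_subgroupOf.2 y.2)⟩ : (Y.subgroupOf X).map p)) ?_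
    intro y y' h
    have h1 : p ⟨y, hYX y.2⟩ = p ⟨y', hYX y'.2⟩ := congrArg Subtype.val h
    have h2 := hinj (⟨y', hYX y'.2⟩⁻¹ * ⟨y, hYX y.2⟩) (Y.mul_mem (Y.inv_mem y'.2) y.2) (by
      rw [map_mul, map_inv, h1, inv_mul_cancel])
    have h3 := inv_mul_eq_one.1 h2
    exact Subtype.ext (congrArg Subtype.val h3).symm
  have hF : Nat.card (Subgroup.closure (Set.range fun i => p (f' i))) ≤ m := by
    set F := Subgroup.closure (Set.range f) with hFdef
    have hFY : F ≤ Y := by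
      rw [hFdef, Subgroup.closure_le]
      rintro _ ⟨i, rfl⟩
      exact hfY i
    have hFfin : Finite F := Finite.of_injective (Subgroup.inclusion hFY)
      (Subgroup.inclusion_injective hFY)
    have h1 : Subgroup.closure (Set.range fun i => p (f' i)) ≤ (F.subgroupOf X).map p := by
      rw [Subgroup.closure_le]
      rintro _ ⟨i, rfl⟩
      exact Subgroup.mem_map_of_mem p (Subgroup.mem_subgroupOf.2
        (Subgroup.subset_closure ⟨i, rfl⟩))
    have h2 : Nat.card (Subgroup.closure (Set.range fun i => p (f' i))) ≤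
        Nat.card ((F.subgroupOf X).map p) :=
      Nat.card_le_card_of_injective _ (Subgroup.inclusion_injective h1)
    have h3 : Nat.card ((F.subgroupOf X).map p) ≤ Nat.card F := by
      refine Nat.card_le_card_of_surjective (fun y : F => (⟨p ⟨y, hYX (hFY y.2)⟩,
        Subgroup.mem_map_of_mem p (Subgroup.mem_subgroupOf.2 y.2)⟩ : (F.subgroupOf X).map p)) ?_
      rintro ⟨_, x, hx, rfl⟩
      exact ⟨⟨x, Subgroup.mem_subgroupOf.1 hx⟩, rfl⟩
    exact h2.trans (h3.trans hm)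
  have key := hb n ((Y.subgroupOf X).map p) (fun i => p (f' i)) ω ((U.subgroupOf X).map p)
    (lt_of_lt_of_le hbY hcY)
    (fun i => Subgroup.mem_map_of_mem p (Subgroup.mem_subgroupOf.2 (hfY i)))
    (fun i h => hf1 i (congrArg Subtype.val (hinj (f' i) (hfY i) h))) hF
    (by
      rintro _ ⟨x, hx, rfl⟩ h
      rw [hω x (Subgroup.mem_subgroupOf.1 hx) h, map_one])
    (by
      intro g hg
      rw [← hp] at hg
      obtain ⟨x, rfl⟩ := hg
      obtain ⟨i, hi⟩ := hconf x x.2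
      refine ⟨i, x * f' i * x⁻¹, Subgroup.mem_subgroupOf.2 hi, ?_⟩
      rw [map_mul, map_mul, map_inv])
  refine le_antisymm hUX fun x hx => ?_
  have h1 : p ⟨x, hx⟩ ∈ alternatingGroup (Fin n) := by
    rw [← hp]
    exact ⟨_, rfl⟩
  obtain ⟨u, hu, hux⟩ := key h1
  have h2 : p (⟨x, hx⟩ * u⁻¹) = 1 := by
    rw [map_mul, map_inv, hux, mul_inv_cancel]
  have h3 : x * (u : K)⁻¹ ∈ C := (hker _).1 h2
  have h4 := U.mul_mem (hCU h3) (Subgroup.mem_subgroupOf.1 hu)
  rwa [inv_mul_cancel_right] at h4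

end H49KD
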