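import Pool.Agent.H49.KD.Defs
import Pool.Agent.H49.KA.A1
import Pool.Agent.H49.KB.SR
import Pool.Agent.H49.KB.BR
import Pool.Agent.H49.KC.AT
import Pool.Agent.H49.KD.AE

namespace H49KD

open H49KA H49KB H49KC
open scoped commutatorElement

universe u v w

variable {G : Type u} [Group G]

private lemma fin_closure (hG : LocFin G) (S : Set G) (hS : S.Finite) :
    Finite (Subgroup.closure S) := by
  have := hG hS.toFinset
  rwa [Set.Finite.coe_toFinset] at this

private lemma mem_mapK {K : Subgroup G} (Y : Subgroup K) (x : G) :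
    x ∈ Y.map K.subtype ↔ ∃ h : x ∈ K, (⟨x, h⟩ : K) ∈ Y := by
  rw [Subgroup.mem_map]
  constructor
  · rintro ⟨y, hy, rfl⟩
    exact ⟨y.2, hy⟩
  · rintro ⟨h, hy⟩
    exact ⟨⟨x, h⟩, hy, rfl⟩

private lemma subOf_le {K : Subgroup G} (Y : Subgroup G) (Z : Subgroup K)
    (h : Y ≤ Z.map K.subtype) : Y.subgroupOf K ≤ Z := by
  intro x hx
  rw [Subgroup.mem_subgroupOf] at hx
  obtain ⟨_, h'⟩ := (mem_mapK Z _).mp (h hx)
  exact h'

private lemma normIn_map {K : Subgroup G} (X N : Subgroup K) (h : NormIn X N) :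
    NormIn (X.map K.subtype) (N.map K.subtype) := by
  intro x hx n hn
  obtain ⟨hxK, hx'⟩ := (mem_mapK _ _).mp hx
  obtain ⟨hnK, hn'⟩ := (mem_mapK _ _).mp hn
  exact (mem_mapK _ _).mpr ⟨K.mul_mem (K.mul_mem hxK hnK) (K.inv_mem hxK), h _ hx' _ hn'⟩

/-- transport of almost simple sections -/
private lemma ass_map {K : Subgroup G} (X : Subgroup G) (hXK : X ≤ K) (T C : Subgroup K)
    (h : AlmostSimpleSec (X.subgroupOf K) T C) :
    AlmostSimpleSec X (T.map K.subtype) (C.map K.subtype) := by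
  obtain ⟨hTX, hXC, hXT, ⟨hCT, hTC, hmin, a, ha, b, hb, hab⟩, hcen⟩ := h
  have hmapX : (X.subgroupOf K).map K.subtype = X := Subgroup.map_subgroupOf_eq_of_le hXK
  refine ⟨?_, ?_, ?_, ⟨Subgroup.map_mono hCT, normIn_map _ _ hTC, ?_, ?_⟩, ?_⟩
  · rw [← hmapX]; exact Subgroup.map_mono hTX
  · have := normIn_map _ _ hXC; rwa [hmapX] at this
  · have := normIn_map _ _ hXT; rwa [hmapX] at this
  · intro N hCN hNT hTN
    have hNK : N ≤ K := hNT.trans (by
      intro x hx
      obtain ⟨h, _⟩ := (mem_mapK _ _).mp hx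
      exact h)
    have hmapN : (N.subgroupOf K).map K.subtype = N := Subgroup.map_subgroupOf_eq_of_le hNK
    have h1 : C ≤ N.subgroupOf K := by
      intro x hx
      rw [Subgroup.mem_subgroupOf]
      exact hCN ((mem_mapK _ _).mpr ⟨x.2, hx⟩)
    have h2 : N.subgroupOf K ≤ T := subOf_le _ _ hNT
    have h3 : NormIn T (N.subgroupOf K) := by
      intro t ht x hx
      rw [Subgroup.mem_subgroupOf] at hx ⊢
      exact hTN t ((mem_mapK _ _).mpr ⟨t.2, ht⟩) x hx
    rcases hmin _ h1 h2 h3 with h4 | h4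
    · left; rw [← h4, hmapN]
    · right; rw [← h4, hmapN]
  · refine ⟨a, (mem_mapK _ _).mpr ⟨a.2, ha⟩, b, (mem_mapK _ _).mpr ⟨b.2, hb⟩, ?_⟩
    intro h
    obtain ⟨_, h'⟩ := (mem_mapK _ _).mp h
    exact hab h'
  · intro x hx h
    refine (mem_mapK _ _).mpr ⟨hXK hx, ?_⟩
    apply hcen ⟨x, hXK hx⟩ (by rw [Subgroup.mem_subgroupOf]; exact hx)
    intro t ht
    obtain ⟨_, h'⟩ := (mem_mapK _ _).mp (h t ((mem_mapK _ _).mpr ⟨t.2, ht⟩))
    exact h'

/-- powers of maps of small rank -/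
private lemma smallRank_pow {k : Type} [Field k] {V : Type} [AddCommGroup V] [Module k V]
    {c : ℕ} {g : V ≃ₗ[k] V} {a : k} (h : SmallRank c g a) (n : ℕ) :
    SmallRank c (g ^ n) (a ^ n) := by
  have key : ∀ v : V, ∃ u : V, (g ^ n) v - a ^ n • v = g u - a • u := by
    induction n with
    | zero => intro v; exact ⟨0, by simp⟩
    | succ n ih =>
      intro v
      obtain ⟨u, hu⟩ := ih v
      refine ⟨g u + a ^ n • v, ?_⟩
      have h1 : (g ^ n) v = g u - a • u + a ^ n • v := by rw [← hu]; abel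
      have h2 : (g ^ (n + 1)) v = g ((g ^ n) v) := by rw [pow_succ', LinearEquiv.mul_apply]
      rw [h2, h1, map_add, map_sub, map_smul, map_smul, map_add, map_smul, smul_add, smul_smul,
        ← pow_succ']
      abel
  obtain ⟨w, hw⟩ := h
  refine ⟨w, fun v => ?_⟩
  obtain ⟨u, hu⟩ := key v
  obtain ⟨b, hb⟩ := hw u
  exact ⟨b, by rw [hu, hb]⟩

private lemma rank_step (M X : Subgroup G) (hMX : M ≤ X) (f : G) (hf : f ∈ M)
    (hfin : IsOfFinOrder f) (c : ℕ)
    (hM : ∀ (k : Type) [Field k] (V : Type) [AddCommGroup V] [Module k V] (p : M →* PGrp k V),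
        (∃ f' : M, (f' : G) ∈ Subgroup.zpowers f ∧ p f' ≠ 1) →
        ∃ f' : M, (f' : G) ∈ Subgroup.zpowers f ∧ ∀ (g : V ≃ₗ[k] V) (a : k),
          p f' = (g : PGrp k V) → ¬ SmallRank c g a)
    (k : Type) [Field k] (V : Type) [AddCommGroup V] [Module k V] (p : X →* PGrp k V) (x : X)
    (hx : (x : G) = f) (hpx : p x ≠ 1) (g : V ≃ₗ[k] V) (a : k) (hg : p x = (g : PGrp k V)) :
    ¬ SmallRank c g a := by
  intro hs
  obtain ⟨f', hf', h'⟩ := hM k V (p.comp (Subgroup.inclusion hMX))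
    ⟨⟨f, hf⟩, Subgroup.mem_zpowers f, by
      have : Subgroup.inclusion hMX ⟨f, hf⟩ = x := Subtype.ext hx.symm
      rw [MonoidHom.comp_apply, this]; exact hpx⟩
  rw [← hfin.mem_powers_iff_mem_zpowers] at hf'
  obtain ⟨n, hn⟩ := hf'
  refine h' (g ^ n) (a ^ n) ?_ (smallRank_pow hs n)
  have : Subgroup.inclusion hMX f' = x ^ n := Subtype.ext (by
    rw [Subgroup.coe_pow, hx]
    exact hn.symm)
  rw [MonoidHom.comp_apply, this, map_pow, hg]
  rfl

private lemma exists_nab (hG : LocFin G) [IsSimpleGroup G] [Infinite G] :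
    ∃ a b : G, a * b ≠ b * a := by
  by_contra hcon
  push Not at hcon
  obtain ⟨g, hg⟩ := exists_ne (1 : G)
  have hfin : Finite (Subgroup.closure ({g} : Set G)) := fin_closure hG _ (Set.finite_singleton g)
  have hnorm : (Subgroup.closure ({g} : Set G)).Normal := ⟨fun x hx y => by
    rw [hcon y x, mul_inv_cancel_right]; exact hx⟩
  rcases IsSimpleGroup.eq_bot_or_eq_top_of_normal _ hnorm with h | h
  · have h1 : g ∈ Subgroup.closure ({g} : Set G) := Subgroup.subset_closure rfl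
    rw [h, Subgroup.mem_bot] at h1
    exact hg h1
  · rw [h] at hfin
    have : Finite G := Finite.of_equiv _ Subgroup.topEquiv.toEquiv
    exact not_finite G

private lemma exists_maxU {K : Type u} [Group K] [Finite K] (H X : Subgroup K) (h : ¬ X ≤ H) :
    ∃ U : Subgroup K, H ≤ U ∧ ¬ X ≤ U ∧ ∀ U' : Subgroup K, U ≤ U' → U' ≠ U → X ≤ U' := by
  obtain ⟨U, hHU, hU⟩ := (Set.toFinite {U : Subgroup K | ¬ X ≤ U}).exists_le_maximal h
  refine ⟨U, hHU, hU.prop, fun U' h1 h2 => ?_⟩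
  by_contra hcon
  exact h2 (le_antisymm (hU.le_of_ge hcon h1) h1)

/-- transport of classical sections -/
private lemma classSec_sub {K : Subgroup G} (X : Subgroup G) (hXK : X ≤ K) (C : Subgroup K)
    (h : ClassSec X (C.map K.subtype)) : ClassSec (X.subgroupOf K) C := by
  obtain ⟨k, _, hk, V, _, _, hV, Γ, p, hΓ, hp, hr⟩ := h
  refine ⟨k, _, hk, V, _, _, hV, Γ, p.comp (Subgroup.subgroupOfEquivOfLe hXK).toMonoidHom, hΓ,
    ?_, ?_⟩
  · intro t
    rw [MonoidHom.comp_apply, hp, mem_mapK]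
    constructor
    · rintro ⟨_, h1⟩
      exact h1
    · intro h1
      exact ⟨t.1.2, h1⟩
  · rw [← hr]
    ext y
    constructor
    · rintro ⟨x, rfl⟩
      exact ⟨_, rfl⟩
    · rintro ⟨x, rfl⟩
      refine ⟨(Subgroup.subgroupOfEquivOfLe hXK).symm x, ?_⟩
      rw [MonoidHom.comp_apply]
      congr 1

theorem exists_cdata (hG : LocFin G) [IsSimpleGroup G] [Infinite G] (hn : ¬ Finitary G)
    (hR : RegOrb G) (d : ℕ) (𝓛 : Set (Subgroup G)) (h𝓛 : LocalSystem 𝓛) (hT : Tops d 𝓛)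
    (H : Subgroup G) (hH : Confined H) (hH1 : H ≠ ⊤) :
    ∃ s m : ℕ, 0 < s ∧ ∀ b c : ℕ, ∃ (K : Subgroup G) (f : Fin s → K) (Y X U : Subgroup K),
      CData (fun C => ClassSec X C ∨ AltReg X C Y) s b c f Y X U ∧
      Nat.card (Subgroup.closure (Set.range f)) ≤ m := by
  classical
  obtain ⟨S, hS1, hS⟩ := hH
  have hs : 0 < S.card := by
    obtain ⟨h, _, hh⟩ := hS 1
    exact Finset.card_pos.mpr ⟨_, hh⟩
  refine ⟨S.card, Nat.card (Subgroup.closure (S : Set G)), hs, fun b c => ?_⟩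
  obtain ⟨b₀, hb₀⟩ := alt_top.{u}
  let fG : Fin S.card → G := fun i => (S.equivFin.symm i : G)
  have hfS : ∀ i, fG i ∈ S := fun i => (S.equivFin.symm i).2
  have hf1 : ∀ i, fG i ≠ 1 := fun i h => hS1 (h ▸ hfS i)
  have hfsurj : ∀ x ∈ S, ∃ i, fG i = x := fun x hx => ⟨S.equivFin ⟨x, hx⟩, by simp [fG]⟩
  obtain ⟨g0, hg0⟩ : ∃ g0 : G, g0 ∉ H := by
    by_contra hcon
    push Not at hcon
    exact hH1 (eq_top_iff.mpr fun x _ => hcon x)
  obtain ⟨a0, b0, hab0⟩ := exists_nab (G := G) hG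
  obtain ⟨B, hB⟩ := Infinite.exists_subset_card_eq G (max b (max b₀ 24) + 1)
  -- Y
  let Y : Subgroup G := Subgroup.closure
    (((S ∪ {g0, a0, b0} ∪ B : Finset G)) : Set G)
  have hYfin : Finite Y := hG _
  have hSY : ∀ x ∈ S, x ∈ Y := fun x hx => Subgroup.subset_closure (by simp [hx])
  have hg0Y : g0 ∈ Y := Subgroup.subset_closure (by simp)
  have ha0Y : a0 ∈ Y := Subgroup.subset_closure (by simp)
  have hb0Y : b0 ∈ Y := Subgroup.subset_closure (by simp)
  have hBY : ∀ x ∈ B, x ∈ Y := fun x hx => Subgroup.subset_closure (by simp [hx])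
  have hYcard : max b (max b₀ 24) < Nat.card Y := by
    have h1 : Nat.card B ≤ Nat.card Y :=
      Nat.card_le_card_of_injective (fun x : B => (⟨x, hBY x x.2⟩ : Y)) (fun x y h => by
        apply Subtype.ext
        have h2 : ((⟨x, hBY x x.2⟩ : Y) : G) = ((⟨y, hBY y y.2⟩ : Y) : G) :=
          congrArg Subtype.val h
        exact h2)
    rw [Nat.card_eq_fintype_card, Fintype.card_coe, hB] at h1
    omega
  have hfY : ∀ i, fG i ∈ Y := fun i => hSY _ (hfS i)
  -- Y'
  obtain ⟨Y', hY'fin, hYY', htY⟩ := exists_plus hG Y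
  -- the groups witnessing large rank
  have hzfin : ∀ i, Finite (Subgroup.zpowers (fG i)) := fun i =>
    Finite.of_injective _ (Subgroup.inclusion_injective
      (Subgroup.zpowers_le.mpr (hfY i) : Subgroup.zpowers (fG i) ≤ Y))
  have hzord : ∀ i, IsOfFinOrder (fG i) := fun i =>
    MonoidHom.isOfFinOrder Y.subtype (isOfFinOrder_of_finite (⟨fG i, hfY i⟩ : Y))
  choose M hMfin hFM hM using fun i => big_rank hG hn (Subgroup.zpowers (fG i)) (hzfin i)
    (max c d)
  obtain ⟨MY, hMYfin, hYMY, hMY⟩ := hR Y hYfin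
  let L2 : Subgroup G := Subgroup.closure (((Y' : Set G) ∪ (MY : Set G)) ∪ ⋃ i, (M i : Set G))
  have hL2fin : Finite L2 := fin_closure hG _
    (Set.Finite.union (Set.Finite.union (Set.toFinite _) (Set.toFinite _))
      (Set.finite_iUnion fun i => Set.toFinite _))
  have hY'L : Y' ≤ L2 := fun x hx => Subgroup.subset_closure (Or.inl (Or.inl hx))
  have hMYL : MY ≤ L2 := fun x hx => Subgroup.subset_closure (Or.inl (Or.inr hx))
  have hML : ∀ i, M i ≤ L2 := fun i x hx =>
    Subgroup.subset_closure (Or.inr (Set.mem_iUnion.mpr ⟨i, hx⟩))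
  have hYL : Y ≤ L2 := hYY'.trans hY'L
  obtain ⟨L2', hL2'fin, hLL', htL⟩ := exists_plus hG L2
  obtain ⟨K, hK𝓛, hKsub⟩ := h𝓛.2 (Set.toFinite (L2' : Set G)).toFinset
  rw [Set.Finite.coe_toFinset] at hKsub
  have hL'K : L2' ≤ K := hKsub
  have hKfin : Finite K := h𝓛.1 K hK𝓛
  have hLK : L2 ≤ K := hLL'.trans hL'K
  have hYK : Y ≤ K := hYL.trans hLK
  -- X
  let X : Subgroup G := Subgroup.closure {x | ∃ k ∈ K, ∃ l ∈ L2, x = k * l * k⁻¹}
  have hXK : X ≤ K := by
    rw [Subgroup.closure_le]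
    rintro x ⟨k, hk, l, hl, rfl⟩
    exact K.mul_mem (K.mul_mem hk (hLK hl)) (K.inv_mem hk)
  have hLX : L2 ≤ X := by
    intro l hl
    exact Subgroup.subset_closure ⟨1, K.one_mem, l, hl, by simp⟩
  have hYX : Y ≤ X := hYL.trans hLX
  have hXfin : Finite X := Finite.of_injective _ (Subgroup.inclusion_injective hXK)
  have hKX : NormIn K X := by
    intro k hk x hx
    have : X ≤ X.comap (MulAut.conj k).toMonoidHom := by
      rw [Subgroup.closure_le]
      rintro y ⟨k', hk', l, hl, rfl⟩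
      refine Subgroup.subset_closure ⟨k * k', K.mul_mem hk hk', l, hl, ?_⟩
      simp [MulAut.conj_apply, mul_assoc]
    exact this hx
  have hXmin : ∀ N : Subgroup G, NormIn K N → (∃ y ∈ L2, y ≠ 1 ∧ y ∈ N) → X ≤ N := by
    intro N hN hy
    have h1 : L2 ≤ N := htL N (fun x hx => hN x (hL'K hx)) hy
    rw [Subgroup.closure_le]
    rintro y ⟨k, hk, l, hl, rfl⟩
    exact hN k hk l (h1 hl)
  have hXX : ⁅X, X⁆ = X := by
    apply le_antisymm
    · rw [Subgroup.commutator_le]
      intro a ha b hb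
      exact X.mul_mem (X.mul_mem (X.mul_mem ha hb) (X.inv_mem ha)) (X.inv_mem hb)
    · apply hXmin
      · intro k hk x hx
        have : ⁅X, X⁆ ≤ ⁅X, X⁆.comap (MulAut.conj k).toMonoidHom := by
          rw [Subgroup.commutator_le]
          intro a ha b hb
          rw [Subgroup.mem_comap, map_commutatorElement]
          exact Subgroup.commutator_mem_commutator (hKX k hk a ha) (hKX k hk b hb)
        exact this hx
      · refine ⟨⁅a0, b0⁆, L2.mul_mem (L2.mul_mem (L2.mul_mem (hYL ha0Y) (hYL hb0Y))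
          (L2.inv_mem (hYL ha0Y))) (L2.inv_mem (hYL hb0Y)), ?_,
          Subgroup.commutator_mem_commutator (hYX ha0Y) (hYX hb0Y)⟩
        intro h
        exact hab0 (commutatorElement_eq_one_iff_mul_comm.mp h)
  have mapX : (X.subgroupOf K).map K.subtype = X := Subgroup.map_subgroupOf_eq_of_le hXK
  have mapY : (Y.subgroupOf K).map K.subtype = Y := Subgroup.map_subgroupOf_eq_of_le hYK
  have cardY : Nat.card (Y.subgroupOf K) = Nat.card Y :=
    Nat.card_congr (Subgroup.subgroupOfEquivOfLe hYK).toEquiv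
  -- U
  have hXH : ¬ X.subgroupOf K ≤ H.subgroupOf K := by
    intro h
    have h1 : (⟨g0, hYK hg0Y⟩ : K) ∈ X.subgroupOf K := by
      rw [Subgroup.mem_subgroupOf]; exact hYX hg0Y
    have h2 := h h1
    rw [Subgroup.mem_subgroupOf] at h2
    exact hg0 h2
  obtain ⟨U, hHU, hXU, hmax⟩ := exists_maxU _ _ hXH
  -- rank
  have hrk : ∀ (k : Type) [Field k] (V : Type) [AddCommGroup V] [Module k V]
      (p : X →* PGrp k V) (x : X) (i : Fin S.card), (x : G) = fG i → p x ≠ 1 →
      ∀ (g : V ≃ₗ[k] V) (a : k), p x = (g : PGrp k V) → ¬ SmallRank (max c d) g a := by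
    intro k _ V _ _ p x i hx hpx g a hg
    exact rank_step (M i) X ((hML i).trans hLX) (fG i)
      (hFM i (Subgroup.mem_zpowers _)) (hzord i) (max c d) (hM i) k V p x hx hpx g a hg
  refine ⟨K, fun i => ⟨fG i, hYK (hfY i)⟩, Y.subgroupOf K, X.subgroupOf K, U, ?_, ?_⟩
  rotate_left
  · -- the order of the group generated by the `f i`
    have hfinS : Finite (Subgroup.closure (S : Set G)) := hG S
    have hmem : ∀ x : K, x ∈ Subgroup.closure
        (Set.range fun i : Fin S.card => (⟨fG i, hYK (hfY i)⟩ : K)) →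
        (x : G) ∈ Subgroup.closure (S : Set G) := by
      intro x hx
      have h1 : Subgroup.closure (Set.range fun i : Fin S.card => (⟨fG i, hYK (hfY i)⟩ : K)) ≤
          (Subgroup.closure (S : Set G)).subgroupOf K := by
        rw [Subgroup.closure_le]
        rintro _ ⟨i, rfl⟩
        exact Subgroup.subset_closure (hfS i)
      exact h1 hx
    refine Nat.card_le_card_of_injective
      (fun x : Subgroup.closure
        (Set.range fun i : Fin S.card => (⟨fG i, hYK (hfY i)⟩ : K)) =>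
        (⟨((x : K) : G), hmem x x.2⟩ : Subgroup.closure (S : Set G))) ?_
    intro x y hxy
    have h3 := congrArg (fun z : Subgroup.closure (S : Set G) => (z : G)) hxy
    exact Subtype.ext (Subtype.ext h3)
  refine
    { finK := hKfin
      hs := hs
      hfY := fun i => hfY i
      hf1 := fun i h => hf1 i (congrArg Subtype.val h)
      hYX := fun x hx => hYX hx
      hXn := ⟨fun x hx k => hKX k k.2 x hx⟩
      hX := ?_
      tY := ?_
      d1 := ?_
      nab := ⟨⟨a0, hYK ha0Y⟩, ha0Y, ⟨b0, hYK hb0Y⟩, hb0Y, fun h =>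
        hab0 (congrArg Subtype.val h)⟩
      big := ?_
      hXU := hXU
      maxU := hmax
      conf := ?_
      rk := ?_
      tops := ?_ }
  · apply Subgroup.map_injective K.subtype_injective
    rw [Subgroup.map_commutator, mapX, hXX]
  · rintro N hN ⟨y, hyY, hy1, hyN⟩
    apply subOf_le
    apply htY
    · intro x hx n hn
      obtain ⟨hnK, hn'⟩ := (mem_mapK _ _).mp hn
      exact (mem_mapK _ _).mpr ⟨_, hN ⟨x, hLK (hY'L hx)⟩ (hLX (hY'L hx)) _ hn'⟩
    · exact ⟨y, hyY, fun h => hy1 (Subtype.ext h), (mem_mapK _ _).mpr ⟨y.2, hyN⟩⟩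
  · rintro N hN ⟨y, hyY, hy1, hyN⟩
    apply subOf_le
    apply hXmin
    · intro k hk n hn
      obtain ⟨hnK, hn'⟩ := (mem_mapK _ _).mp hn
      exact (mem_mapK _ _).mpr ⟨_, hN.conj_mem _ hn' ⟨k, hk⟩⟩
    · exact ⟨y, hYL hyY, fun h => hy1 (Subtype.ext h), (mem_mapK _ _).mpr ⟨y.2, hyN⟩⟩
  · rw [cardY]
    exact lt_of_le_of_lt (le_max_left _ _) hYcard
  · intro g
    obtain ⟨h, hh, hhS⟩ := hS (g : G)⁻¹
    obtain ⟨i, hi⟩ := hfsurj _ hhS
    refine ⟨i, hHU ?_⟩
    rw [Subgroup.mem_subgroupOf]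
    have : (g : G) * fG i * (g : G)⁻¹ = h := by rw [hi]; group
    change (g : G) * fG i * (g : G)⁻¹ ∈ H
    rw [this]; exact hh
  · intro k _ V _ _ p x i hx hpx g a hg hsm
    let e := Subgroup.subgroupOfEquivOfLe hXK
    refine hrk k V (p.comp e.symm.toMonoidHom) (e x) i ?_ ?_ g a ?_
      (smallRank_mono (le_max_left _ _) hsm)
    · exact congrArg Subtype.val hx
    · rw [MonoidHom.comp_apply]
      have : e.symm.toMonoidHom (e x) = x := e.symm_apply_apply x
      rw [this]; exact hpx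
    · rw [MonoidHom.comp_apply]
      have : e.symm.toMonoidHom (e x) = x := e.symm_apply_apply x
      rw [this]; exact hg
  · intro T C hTC hYC
    have hYC' : Y ⊓ C.map K.subtype = ⊥ := by
      rw [eq_bot_iff]
      rintro x ⟨hx1, hx2⟩
      obtain ⟨hxK, hxC⟩ := (mem_mapK _ _).mp hx2
      have h1 : (⟨x, hxK⟩ : K) ∈ Y.subgroupOf K ⊓ C := ⟨hx1, hxC⟩
      rw [hYC, Subgroup.mem_bot] at h1
      rw [Subgroup.mem_bot]
      exact congrArg Subtype.val h1
    have hass := ass_map X hXK T C hTC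
    rcases hT K hK𝓛 X hXK hKX hXX _ _ hass with halt | ⟨hTX, hcl | hlin⟩
    · obtain ⟨n, p, hp1, hp2⟩ := hb₀ G X _ _ Y hXfin hXX hass halt hYX hYC'
        (lt_of_le_of_lt (le_trans (le_max_left _ _) (le_max_right _ _)) hYcard)
      obtain ⟨hTX, hp3⟩ := alt_eq X _ _ Y hXfin hass hYX hYC'
        (lt_of_le_of_lt (le_trans (le_max_right _ _) (le_max_right _ _)) hYcard) n p hp1 hp2
      have hxe : ∃ x : X, (x : G) ∈ Y ∧ p x ≠ 1 := by
        let i : Fin S.card := ⟨0, hs⟩
        refine ⟨⟨fG i, hYX (hfY i)⟩, hfY i, fun h => ?_⟩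
        have h1 : fG i ∈ Y ⊓ C.map K.subtype := ⟨hfY i, (hp3 _).mp h⟩
        rw [hYC', Subgroup.mem_bot] at h1
        exact hf1 i h1
      obtain ⟨ω, hω⟩ := hMY X hXfin (hMYL.trans hLX) n p hp1 hxe
      refine ⟨?_, Or.inr ⟨n, p.comp (Subgroup.subgroupOfEquivOfLe hXK).toMonoidHom, ?_, ?_,
        ω, ?_⟩⟩
      · apply Subgroup.map_injective K.subtype_injective
        rw [mapX, hTX]
      · rw [← hp1]
        ext y
        constructor
        · rintro ⟨x, rfl⟩
          exact ⟨_, rfl⟩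
        · rintro ⟨x, rfl⟩
          refine ⟨(Subgroup.subgroupOfEquivOfLe hXK).symm x, ?_⟩
          rw [MonoidHom.comp_apply]
          congr 1
      · intro t
        rw [MonoidHom.comp_apply, hp3, mem_mapK]
        constructor
        · rintro ⟨_, h1⟩
          exact h1
        · intro h1
          exact ⟨t.1.2, h1⟩
      · intro x hx hpx
        have h1 := hω (Subgroup.subgroupOfEquivOfLe hXK x) hx hpx
        exact (Subgroup.subgroupOfEquivOfLe hXK).injective (h1.trans (map_one _).symm)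
    · refine ⟨?_, Or.inl (classSec_sub X hXK C hcl)⟩
      apply Subgroup.map_injective K.subtype_injective
      rw [mapX, hTX]
    · exfalso
      obtain ⟨k, _, V, _, _, hV, p, hd, hp⟩ := hlin
      let i : Fin S.card := ⟨0, hs⟩
      have hpx : p ⟨fG i, hYX (hfY i)⟩ ≠ 1 := by
        intro h
        have h1 : fG i ∈ Y ⊓ C.map K.subtype := ⟨hfY i, (hp _).mp h⟩
        rw [hYC', Subgroup.mem_bot] at h1
        exact hf1 i h1
      obtain ⟨g, hg⟩ := QuotientGroup.mk_surjective (p ⟨fG i, hYX (hfY i)⟩)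
      exact hrk k V p ⟨fG i, hYX (hfY i)⟩ i rfl hpx g 1 hg.symm
        (smallRank_of_finrank (hd.trans (le_max_right _ _)) g 1)

end H49KD
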