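import Pool.Agent.H49.KA.SN
import Pool.Agent.H49.KC.Main
import Pool.Agent.H49.KD.CE
import Pool.Agent.H49.KD.C1
import Pool.Agent.H49.KD.C2
import Pool.Agent.H49.KD.C3
import Pool.Agent.H49.KD.XD
import Pool.Agent.H49.KD.TA
import Pool.Agent.H49.KD.RO

namespace H49KD

open H49KA H49KB H49KC

universe u v w

variable {G : Type u} [Group G]

theorem noConf_of_regOrb (hG : LocFin G) [IsSimpleGroup G] [Infinite G] (hn : ¬ Finitary G)
    (hR : RegOrb G) (d : ℕ) (𝓛 : Set (Subgroup G)) (h𝓛 : LocalSystem 𝓛) (hT : Tops d 𝓛) :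
    NoConf G := by
  intro H hH
  by_contra hH1
  obtain ⟨s, m, hs, hex⟩ := exists_cdata hG hn hR d 𝓛 h𝓛 hT H hH hH1
  obtain ⟨c₁, htop⟩ := top_conf.{u} s hs
  obtain ⟨b₁, htop'⟩ := top_alt.{u} s m
  obtain ⟨K, f, Y, X, U, hd, hm⟩ := hex (max (max ((s ^ 2) ^ (s ^ 2))
    (((s ^ 2).factorial) ^ ((s ^ 2).factorial))) b₁) (max c₁ (max (s ^ 2) (10 * (s + 1) ^ 2)))
  obtain ⟨N, N₀, hN⟩ := chf_exists hd
  have hperf := case1 hd (le_trans (le_max_left _ _) (le_max_left _ _))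
    (le_trans (le_max_left _ _) (le_max_right _ _)) hN
  have hfix := case2 hd (le_trans (le_max_right _ _) (le_max_right _ _)) hN hperf
  refine case3 hd (le_trans (le_max_right _ _) (le_max_left _ _)) hN hperf hfix ?_
  intro C U' hs1 hs2 hf hCU hUX hconf
  rcases hs2 with hs2 | hs2
  · refine htop K X C U' f hs1 hs2 (fun i => hd.hYX (hd.hfY i)) hf ?_ hCU hUX hconf
    intro k _ V _ _ p x i hx hp g a hg hsm
    exact hd.rk k V p x i hx hp g a hg (smallRank_mono (le_max_left _ _) hsm)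
  · exact htop' K X C U' Y f hs2 hd.hYX hd.hfY hd.hf1
      (lt_of_le_of_lt (le_max_right _ _) hd.big) hm hCU hUX hconf

theorem mainD (G : Type u) [Group G] [Infinite G] (hG : LocFin G) (hn : ¬ Finitary G)
    (d : ℕ) (𝓛 : Set (Subgroup G)) (h𝓛 : LocalSystem 𝓛) (hT : Tops d 𝓛) :
    (AugSimple G ↔ NoConf G) ∧ (AugSimple G ↔ IsSimpleGroup G ∧ RegOrb G) ∧
      (¬ AltQuot G → (AugSimple G ↔ IsSimpleGroup G)) := by
  obtain ⟨h1, h2⟩ := mainC G hG hn d 𝓛 h𝓛 hT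
  refine ⟨h1, ⟨fun h => ?_, ?_⟩, h2⟩
  · have hC := h1.1 h
    exact ⟨simple_of_noConf hC, regOrb_of_noConf hG hC⟩
  · rintro ⟨hs, hR⟩
    exact h1.2 (noConf_of_regOrb hG hn hR d 𝓛 h𝓛 hT)

end H49KD
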